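import Pool.Agent.Lib.MP_561634_an.Signs

set_option autoImplicit false

namespace Pool.Agent.Lib.MP561634

open Polynomial

lemma card_KS_le (g : ℝ[X]) (hg0 : g ≠ 0) (S : Finset ℕ) (hS : S.Nonempty) (y : ℕ → ℝ)
    (hy : ∀ k ∈ S, Dom g.coeff k (y k)) (n : ℕ) : (KS g.coeff S hS n).card ≤ npos g := by
  classical
  have hroot : ∀ m ∈ KS g.coeff S hS n, ∃ ξ, y (lastEl S hS m) < ξ ∧ ξ < y (lastEl S hS (m + 1)) ∧
      g.eval ξ = 0 := by
    intro m hm
    have hm2 : g.coeff (lastEl S hS m) * g.coeff (lastEl S hS (m + 1)) < 0 :=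
      (Finset.mem_filter.1 hm).2
    have hne : lastEl S hS m ≠ lastEl S hS (m + 1) := by
      intro h
      rw [← h] at hm2
      have := mul_self_nonneg (g.coeff (lastEl S hS m))
      linarith
    have hlt : lastEl S hS m < lastEl S hS (m + 1) :=
      lt_of_le_of_ne (lastEl_mono S hS (Nat.le_succ m)) hne
    have hD1 := hy _ (lastEl_mem S hS m)
    have hD2 := hy _ (lastEl_mem S hS (m + 1))
    have hylt := dom_lt _ hD1 hD2 hlt
    have he1 := dom_eval g hD1
    have he2 := dom_eval g hD2
    have hneg : g.eval (y (lastEl S hS m)) * g.eval (y (lastEl S hS (m + 1))) < 0 := by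
      have h3 := mul_pos he1 he2
      have h4 : g.eval (y (lastEl S hS m)) * g.coeff (lastEl S hS m)
          * (g.eval (y (lastEl S hS (m + 1))) * g.coeff (lastEl S hS (m + 1)))
          = (g.eval (y (lastEl S hS m)) * g.eval (y (lastEl S hS (m + 1))))
            * (g.coeff (lastEl S hS m) * g.coeff (lastEl S hS (m + 1))) := by ring
      rw [h4] at h3
      by_contra hcon
      push Not at hcon
      have := mul_nonpos_of_nonneg_of_nonpos hcon hm2.le
      linarith
    have hcont : ContinuousOn (fun x => g.eval x)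
        (Set.Icc (y (lastEl S hS m)) (y (lastEl S hS (m + 1)))) := g.continuous.continuousOn
    rcases lt_or_gt_of_ne (show g.eval (y (lastEl S hS m)) ≠ 0 from by
      intro h; rw [h, zero_mul] at hneg; exact lt_irrefl _ hneg) with h | h
    · have h5 : 0 < g.eval (y (lastEl S hS (m + 1))) := by
        by_contra hcon
        push Not at hcon
        have := mul_nonneg_of_nonpos_of_nonpos h.le hcon
        linarith
      obtain ⟨ξ, hξ, hξ0⟩ := intermediate_value_Ioo hylt.le hcont ⟨h, h5⟩
      exact ⟨ξ, hξ.1, hξ.2, hξ0⟩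
    · have h5 : g.eval (y (lastEl S hS (m + 1))) < 0 := by
        by_contra hcon
        push Not at hcon
        have := mul_nonneg h.le hcon
        linarith
      obtain ⟨ξ, hξ, hξ0⟩ := intermediate_value_Ioo' hylt.le hcont ⟨h5, h⟩
      exact ⟨ξ, hξ.1, hξ.2, hξ0⟩
  choose! ξ hξ1 hξ2 hξ3 using hroot
  have hymono : ∀ i ∈ S, ∀ j ∈ S, i ≤ j → y i ≤ y j := by
    intro i hi j hj hij
    rcases hij.lt_or_eq with h | h
    · exact (dom_lt _ (hy i hi) (hy j hj) h).le
    · rw [h]
  have hmono : ∀ m ∈ KS g.coeff S hS n, ∀ m' ∈ KS g.coeff S hS n, m < m' → ξ m < ξ m' := by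
    intro m hm m' hm' hlt
    calc ξ m < y (lastEl S hS (m + 1)) := hξ2 m hm
      _ ≤ y (lastEl S hS m') := hymono _ (lastEl_mem _ _ _) _ (lastEl_mem _ _ _)
          (lastEl_mono S hS hlt)
      _ < ξ m' := hξ1 m' hm'
  have hinj : Set.InjOn ξ (KS g.coeff S hS n : Set ℕ) := by
    intro m hm m' hm' heq
    rcases lt_trichotomy m m' with h | h | h
    · exact absurd heq (hmono m hm m' hm' h).ne
    · exact h
    · exact absurd heq (hmono m' hm' m hm h).ne'
  rw [← Finset.card_image_of_injOn hinj]
  unfold npos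
  refine le_trans (Finset.card_le_card ?_) (Multiset.toFinset_card_le _)
  intro x hx
  rw [Finset.mem_image] at hx
  obtain ⟨m, hm, rfl⟩ := hx
  rw [Multiset.mem_toFinset, Multiset.mem_filter, mem_roots hg0]
  exact ⟨hξ3 m hm, lt_trans (hy _ (lastEl_mem S hS m)).2.1 (hξ1 m hm)⟩

/-- The main inequality: the diagonal operator with a rapidly increasing positive multiplier
does not increase the number of positive zeros. -/
theorem npos_diag_le (A : ℕ → ℝ) (hA : ∀ k, 2 * A (k + 1) + Real.log 400 ≤ A (k + 2) + A k)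
    (g : ℝ[X]) (hg0 : g ≠ 0) : npos (diag (fun k => Real.exp (A k)) g) ≤ npos g := by
  classical
  set f := diag (fun k => Real.exp (A k)) g with hf
  have hf0 : f ≠ 0 := by
    intro h0
    apply hg0
    ext k
    have := congrArg (fun q => q.coeff k) h0
    simp only [hf, coeff_diag, coeff_zero] at this
    rw [coeff_zero]
    exact (mul_eq_zero.1 this).resolve_right (Real.exp_ne_zero _)
  set n := g.natDegree with hn
  set S := (Finset.range (n + 1)).filter (fun k => ∃ y, Dom g.coeff k y) with hSdef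
  have hnS : ∀ k, k ∉ S → g.coeff k ≠ 0 → ¬ ∃ y, Dom g.coeff k y := by
    intro k hk hgk hex
    apply hk
    rw [hSdef, Finset.mem_filter, Finset.mem_range]
    exact ⟨Nat.lt_succ_of_le (le_natDegree_of_ne_zero hgk), hex⟩
  have hSy : ∀ k ∈ S, ∃ y, Dom g.coeff k y := fun k hk => (Finset.mem_filter.1 hk).2
  choose! y hy using hSy
  have hSle : ∀ k ∈ S, k ≤ n := fun k hk => by
    have := Finset.mem_range.1 (Finset.mem_filter.1 hk).1
    omega
  -- the constants
  set c := Real.log (20 / 3) with hc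
  have hcexp : Real.exp (-c) ≤ 3 / 20 := by
    rw [hc, Real.exp_neg, Real.exp_log (by norm_num)]
    norm_num
  have hlog : Real.log 400 - Real.log 9 = 2 * c := by
    rw [hc, ← Real.log_div (by norm_num) (by norm_num)]
    have : (400 / 9 : ℝ) = (20 / 3) ^ 2 := by norm_num
    rw [this, Real.log_pow]
    norm_num
  -- the weighted exponents for a given set of positions
  have haK : ∀ K : Finset ℕ, ∀ k, 2 * (A (k + 1) + Real.log |PK K (k + 1)|) + 2 * c
      ≤ (A (k + 2) + Real.log |PK K (k + 2)|) + (A k + Real.log |PK K k|) := by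
    intro K k
    have h1 := hA k
    have hp0 : 0 < |PK K k| := abs_pos.2 (PK_ne_zero _ _)
    have hp1 : 0 < |PK K (k + 1)| := abs_pos.2 (PK_ne_zero _ _)
    have hp2 : 0 < |PK K (k + 2)| := abs_pos.2 (PK_ne_zero _ _)
    have h2 : Real.log ((1 / 9 : ℝ) * |PK K (k + 1)| ^ 2)
        ≤ Real.log (|PK K (k + 2)| * |PK K k|) :=
      Real.log_le_log (by positivity) (PK_convex K k)
    rw [Real.log_mul (by norm_num) (by positivity), Real.log_mul hp2.ne' hp0.ne', Real.log_pow,
      Real.log_div (by norm_num) (by norm_num), Real.log_one] at h2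
    push_cast at h2
    linarith
  have hstep : ∀ K : Finset ℕ, ∀ x : ℝ, 0 < x → ∀ k, k ∉ S →
      (Real.exp (A k + Real.log |PK K k|) * |g.coeff k| * x ^ k) ≠ 0 → ∃ j, j ≠ k ∧
      (Real.exp (A k + Real.log |PK K k|) * |g.coeff k| * x ^ k) < (8 / 25 : ℝ) ^ (nd j k)
        * (Real.exp (A j + Real.log |PK K j|) * |g.coeff j| * x ^ j) := by
    intro K x hx k hkS hk0
    have hgk : g.coeff k ≠ 0 := by
      rintro h
      apply hk0
      rw [h]; simp
    exact nondom_step g.coeff (fun k => A k + Real.log |PK K k|) c hcexp (haK K) k hgk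
      (hnS k hkS hgk) x hx
  have hdom : ∀ K : Finset ℕ, ∀ x : ℝ, 0 < x →
      ∑ k ∈ Finset.range (n + 1) \ S, (Real.exp (A k + Real.log |PK K k|) * |g.coeff k| * x ^ k)
      < ∑ k ∈ S, (Real.exp (A k + Real.log |PK K k|) * |g.coeff k| * x ^ k) := by
    intro K x hx
    refine sum_dominated (fun k => Real.exp (A k + Real.log |PK K k|) * |g.coeff k| * x ^ k) n
      (fun k => by positivity) (fun k hk => ?_) S (hstep K x hx) ?_
    · rw [coeff_eq_zero_of_natDegree_lt hk]; simp
    · refine ⟨n, ?_⟩
      have : g.coeff n ≠ 0 := by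
        rw [hn]
        exact leadingCoeff_ne_zero.2 hg0
      have h1 : 0 < |g.coeff n| := abs_pos.2 this
      positivity
  have hSne : S.Nonempty := by
    by_contra h
    rw [Finset.not_nonempty_iff_eq_empty] at h
    have h1 := hdom ∅ 1 one_pos
    rw [h] at h1
    simp only [Finset.sum_empty] at h1
    have h2 : 0 ≤ ∑ k ∈ Finset.range (n + 1) \ (∅ : Finset ℕ),
        (Real.exp (A k + Real.log |PK ∅ k|) * |g.coeff k| * (1 : ℝ) ^ k) :=
      Finset.sum_nonneg fun k _ => by positivity
    linarith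
  set K := KS g.coeff S hSne n with hK
  -- the polynomial after all Rolle steps has no positive zero
  have hFzero : npos (diag (PK K) f) = 0 := by
    set F := diag (PK K) f with hF
    have hFcoeff : ∀ k, F.coeff k = Real.exp (A k) * (g.coeff k * PK K k) := by
      intro k
      rw [hF, coeff_diag, hf, coeff_diag]; ring
    have hFabs : ∀ k, |F.coeff k| = Real.exp (A k + Real.log |PK K k|) * |g.coeff k| := by
      intro k
      rw [hFcoeff, abs_mul, abs_mul, Real.exp_add, Real.exp_log (abs_pos.2 (PK_ne_zero _ _)),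
        abs_of_pos (Real.exp_pos _)]
      ring
    have hsame : ∀ j ∈ S, 0 < (g.coeff (lastEl S hSne 0) * PK K 0) * F.coeff j := by
      intro j hj
      have h1 := KS_sign_all g.coeff S hSne (fun k hk => (hy k hk).1) n j (hSle j hj)
      rw [lastEl_of_mem S hSne hj, ← hK] at h1
      rw [hFcoeff]
      have h2 : (g.coeff (lastEl S hSne 0) * PK K 0) * (Real.exp (A j) * (g.coeff j * PK K j))
          = Real.exp (A j) * ((g.coeff (lastEl S hSne 0) * PK K 0) * (g.coeff j * PK K j)) := by
        ring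
      rw [h2]
      exact mul_pos (Real.exp_pos _) h1
    set τ := g.coeff (lastEl S hSne 0) * PK K 0 with hτ
    have hτ0 : τ ≠ 0 := mul_ne_zero (hy _ (lastEl_mem _ _ _)).1 (PK_ne_zero _ _)
    have hFdeg : F.natDegree ≤ n := by
      rw [natDegree_le_iff_coeff_eq_zero]
      intro N hN
      rw [hFcoeff, coeff_eq_zero_of_natDegree_lt hN]
      simp
    have hSsub : S ⊆ Finset.range (n + 1) := Finset.filter_subset _ _
    have hpos : ∀ x : ℝ, 0 < x → F.eval x ≠ 0 := by
      intro x hx h0
      have h1 : τ * F.eval x = 0 := by rw [h0, mul_zero]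
      rw [eval_eq_sum_range' (Nat.lt_succ_of_le hFdeg), Finset.mul_sum,
        ← Finset.sum_sdiff hSsub] at h1
      have h2 : ∑ k ∈ S, τ * (F.coeff k * x ^ k) = |τ| * ∑ k ∈ S, |F.coeff k| * x ^ k := by
        rw [Finset.mul_sum]
        refine Finset.sum_congr rfl fun k hk => ?_
        have h3 := hsame k hk
        rw [← mul_assoc, ← mul_assoc, ← abs_mul, abs_of_pos h3]
      have h3 : |∑ k ∈ Finset.range (n + 1) \ S, τ * (F.coeff k * x ^ k)|
          ≤ |τ| * ∑ k ∈ Finset.range (n + 1) \ S, |F.coeff k| * x ^ k := by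
        rw [Finset.mul_sum]
        refine (Finset.abs_sum_le_sum_abs _ _).trans (le_of_eq ?_)
        refine Finset.sum_congr rfl fun k _ => ?_
        rw [abs_mul τ, abs_mul (F.coeff k), abs_of_pos (pow_pos hx k)]
      have h4 := hdom K x hx
      have h5 : ∑ k ∈ Finset.range (n + 1) \ S, |F.coeff k| * x ^ k
          < ∑ k ∈ S, |F.coeff k| * x ^ k := by
        simp only [hFabs]
        exact h4
      have h6 := neg_abs_le (∑ k ∈ Finset.range (n + 1) \ S, τ * (F.coeff k * x ^ k))
      have h7 : 0 < |τ| := abs_pos.2 hτ0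
      have h8 := mul_lt_mul_of_pos_left h5 h7
      rw [h2] at h1
      linarith
    have hF0 : F ≠ 0 := by
      intro h
      apply hpos 1 one_pos
      rw [h, eval_zero]
    unfold npos
    rw [Multiset.card_eq_zero, Multiset.filter_eq_nil]
    intro x hx hx0
    rw [mem_roots hF0] at hx
    exact hpos x hx0 hx
  calc npos f ≤ npos (diag (PK K) f) + K.card := npos_le_diag_PK f hf0 K
    _ = K.card := by rw [hFzero, zero_add]
    _ ≤ npos g := card_KS_le g hg0 S hSne y hy n

end Pool.Agent.Lib.MP561634
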