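import Mathlib

set_option autoImplicit false

namespace Pool.Agent.Lib.MP561634

/-- Distance of two natural numbers. -/
def nd (j k : ℕ) : ℕ := (j - k) + (k - j)

lemma nd_comm (j k : ℕ) : nd j k = nd k j := by unfold nd; omega
lemma nd_pos {j k : ℕ} (h : j ≠ k) : 1 ≤ nd j k := by unfold nd; omega
lemma nd_tri (i j k : ℕ) : nd i k ≤ nd i j + nd j k := by unfold nd; omega

lemma sum_nd_le (w : ℕ → ℝ) (W : ℝ)
    (hW : ∀ B : Finset ℕ, (∀ l ∈ B, 1 ≤ l) → ∑ l ∈ B, w l ≤ W)
    (A : Finset ℕ) (k : ℕ) (hk : k ∉ A) : ∑ j ∈ A, w (nd j k) ≤ 2 * W := by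
  classical
  have hsplit : ∑ j ∈ A, w (nd j k)
      = ∑ j ∈ A.filter (fun j => j < k), w (nd j k)
        + ∑ j ∈ A.filter (fun j => ¬ j < k), w (nd j k) :=
    (Finset.sum_filter_add_sum_filter_not A _ _).symm
  have h1 : ∑ j ∈ A.filter (fun j => j < k), w (nd j k) ≤ W := by
    have : ∑ j ∈ A.filter (fun j => j < k), w (nd j k)
        = ∑ l ∈ (A.filter (fun j => j < k)).image (fun j => k - j), w l := by
      rw [Finset.sum_image]
      · refine Finset.sum_congr rfl fun j hj => ?_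
        rw [Finset.mem_filter] at hj
        congr 1
        unfold nd; omega
      · intro a ha b hb hab
        simp only [Finset.coe_filter, Set.mem_ofPred_eq] at ha hb
        dsimp only at hab
        omega
    rw [this]
    refine hW _ fun l hl => ?_
    simp only [Finset.mem_image, Finset.mem_filter] at hl
    obtain ⟨j, hj, rfl⟩ := hl
    omega
  have h2 : ∑ j ∈ A.filter (fun j => ¬ j < k), w (nd j k) ≤ W := by
    have : ∑ j ∈ A.filter (fun j => ¬ j < k), w (nd j k)
        = ∑ l ∈ (A.filter (fun j => ¬ j < k)).image (fun j => j - k), w l := by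
      rw [Finset.sum_image]
      · refine Finset.sum_congr rfl fun j hj => ?_
        rw [Finset.mem_filter] at hj
        congr 1
        unfold nd; omega
      · intro a ha b hb hab
        simp only [Finset.coe_filter, Set.mem_ofPred_eq] at ha hb
        dsimp only at hab
        omega
    rw [this]
    refine hW _ fun l hl => ?_
    simp only [Finset.mem_image, Finset.mem_filter] at hl
    obtain ⟨j, hj, rfl⟩ := hl
    have : j ≠ k := by rintro rfl; exact hk hj.1
    omega
  rw [hsplit]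
  linarith

/-- finite sums of a geometric progression starting at exponent one -/
lemma sum_geom_le (r : ℝ) (hr0 : 0 ≤ r) (hr1 : r < 1) (B : Finset ℕ) (hB : ∀ l ∈ B, 1 ≤ l) :
    ∑ l ∈ B, r ^ l ≤ r / (1 - r) := by
  classical
  have hs : Summable (fun l : ℕ => r ^ (l + 1)) := by
    simpa [pow_succ] using (summable_geometric_of_lt_one hr0 hr1).mul_right r
  have h1 : ∑ l ∈ B, r ^ l = ∑ m ∈ B.image (fun l => l - 1), r ^ (m + 1) := by
    rw [Finset.sum_image]
    · refine Finset.sum_congr rfl fun l hl => ?_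
      have := hB l hl
      congr 1; omega
    · intro a ha b hb hab
      have h1 := hB a ha
      have h2 := hB b hb
      dsimp only at hab
      omega
  rw [h1]
  calc ∑ m ∈ B.image (fun l => l - 1), r ^ (m + 1) ≤ ∑' m : ℕ, r ^ (m + 1) :=
        hs.sum_le_tsum _ (fun _ _ => by positivity)
    _ = r / (1 - r) := by
        simp only [pow_succ]
        rw [tsum_mul_right, tsum_geometric_of_lt_one hr0 hr1]
        rw [div_eq_mul_inv, mul_comm]

/-- the weights used to define dominant indices -/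
noncomputable def wt (l : ℕ) : ℝ := (3 / 20 : ℝ) ^ (l ^ 2) / (8 / 25 : ℝ) ^ l

lemma wt_pos (l : ℕ) : 0 < wt l := by unfold wt; positivity

lemma wt_le (l : ℕ) (hl : 1 ≤ l) : wt l ≤ (15 / 32 : ℝ) * (27 / 2560 : ℝ) ^ (l - 1) := by
  obtain ⟨m, rfl⟩ : ∃ m, l = m + 1 := ⟨l - 1, by omega⟩
  have h1 : (3 / 20 : ℝ) ^ ((m + 1) ^ 2) ≤ (3 / 20 : ℝ) ^ (1 + 3 * m) := by
    apply pow_le_pow_of_le_one (by norm_num) (by norm_num)
    cases m with
    | zero => norm_num
    | succ m => nlinarith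
  unfold wt
  rw [div_le_iff₀ (by positivity)]
  refine h1.trans (le_of_eq ?_)
  rw [Nat.add_sub_cancel, pow_add, pow_mul, pow_succ (8 / 25 : ℝ) m]
  have : ((27 / 2560 : ℝ)) ^ m * (8 / 25 : ℝ) ^ m = ((3 / 20 : ℝ) ^ 3) ^ m := by
    rw [← mul_pow]; norm_num
  calc (3 / 20 : ℝ) ^ 1 * ((3 / 20 : ℝ) ^ 3) ^ m
      = (3 / 20 : ℝ) * (((27 / 2560 : ℝ)) ^ m * (8 / 25 : ℝ) ^ m) := by rw [this]; ring
    _ = 15 / 32 * (27 / 2560) ^ m * ((8 / 25) ^ m * (8 / 25)) := by ring

lemma wt_lt_one (l : ℕ) (hl : 1 ≤ l) : wt l < 1 := by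
  have h1 := wt_le l hl
  have h2 : (27 / 2560 : ℝ) ^ (l - 1) ≤ 1 := pow_le_one₀ (by norm_num) (by norm_num)
  nlinarith

lemma sum_wt_le (B : Finset ℕ) (hB : ∀ l ∈ B, 1 ≤ l) : ∑ l ∈ B, wt l ≤ 19 / 40 := by
  classical
  have hr0 : (0 : ℝ) ≤ 27 / 2560 := by norm_num
  have hr1 : (27 / 2560 : ℝ) < 1 := by norm_num
  have hs : Summable (fun l : ℕ => (27 / 2560 : ℝ) ^ l) := summable_geometric_of_lt_one hr0 hr1
  have h1 : ∑ l ∈ B, wt l ≤ ∑ l ∈ B, (15 / 32 : ℝ) * (27 / 2560 : ℝ) ^ (l - 1) :=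
    Finset.sum_le_sum fun l hl => wt_le l (hB l hl)
  have h2 : ∑ l ∈ B, (15 / 32 : ℝ) * (27 / 2560 : ℝ) ^ (l - 1)
      = ∑ m ∈ B.image (fun l => l - 1), (15 / 32 : ℝ) * (27 / 2560 : ℝ) ^ m := by
    rw [Finset.sum_image]
    intro a ha b hb hab
    have h1 := hB a ha
    have h2 := hB b hb
    dsimp only at hab
    omega
  rw [h2] at h1
  refine h1.trans ?_
  rw [← Finset.mul_sum]
  have h3 : ∑ m ∈ B.image (fun l => l - 1), (27 / 2560 : ℝ) ^ m ≤ (1 - 27 / 2560)⁻¹ := by
    rw [← tsum_geometric_of_lt_one hr0 hr1]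
    exact hs.sum_le_tsum _ (fun _ _ => by positivity)
  have h4 : ((1 : ℝ) - 27 / 2560)⁻¹ = 2560 / 2533 := by norm_num
  rw [h4] at h3
  nlinarith

/-- supporting lines for convex sequences -/
lemma convex_support (b : ℕ → ℝ) (hb : ∀ k, 2 * b (k + 1) ≤ b (k + 2) + b k) (k j : ℕ) :
    b k + (b (k + 1) - b k) * ((j : ℝ) - k) ≤ b j := by
  have hmono : Monotone (fun i => b (i + 1) - b i) := by
    apply monotone_nat_of_le_succ
    intro i
    have := hb i
    show b (i + 1) - b i ≤ b (i + 1 + 1) - b (i + 1)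
    have h2 : i + 1 + 1 = i + 2 := rfl
    rw [h2]; linarith
  rcases le_total k j with h | h
  · obtain ⟨m, rfl⟩ := Nat.exists_eq_add_of_le h
    clear h
    induction m with
    | zero => simp
    | succ m ih =>
      have h1 := hmono (Nat.le_add_right k m)
      dsimp only at h1
      have h2 : k + (m + 1) = k + m + 1 := by ring
      rw [h2]
      push_cast at ih ⊢
      have h3 : b k + (b (k + 1) - b k) * ((k : ℝ) + m + 1 - k)
          = (b k + (b (k + 1) - b k) * ((k : ℝ) + m - k)) + (b (k + 1) - b k) := by ring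
      rw [h3]
      linarith
  · obtain ⟨m, rfl⟩ := Nat.exists_eq_add_of_le h
    clear h
    have key : ∀ m : ℕ, b (j + m) - b j ≤ m * (b (j + m + 1) - b (j + m)) := by
      intro m
      induction m with
      | zero => simp
      | succ m ih =>
        have h1 := hmono (Nat.le_succ (j + m))
        dsimp only at h1
        have h2 : j + (m + 1) = j + m + 1 := by ring
        rw [h2]
        push_cast
        have h1' : b (j + m + 1) - b (j + m) ≤ b (j + m + 1 + 1) - b (j + m + 1) := h1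
        have hm : (0 : ℝ) ≤ m := Nat.cast_nonneg m
        nlinarith
    have := key m
    push_cast
    nlinarith

lemma quad_support (a : ℕ → ℝ) (c : ℝ) (ha : ∀ k, 2 * a (k + 1) + 2 * c ≤ a (k + 2) + a k)
    (k : ℕ) : ∃ s : ℝ, ∀ j : ℕ, a k + s * ((j : ℝ) - k) + c * ((j : ℝ) - k) ^ 2 ≤ a j := by
  have h := convex_support (fun j => a j - c * (j : ℝ) ^ 2) (by
    intro k
    have := ha k
    push_cast
    nlinarith) k
  refine ⟨(a (k + 1) - c * ((k : ℝ) + 1) ^ 2) - (a k - c * (k : ℝ) ^ 2) + 2 * c * k, fun j => ?_⟩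
  have h1 := h j
  push_cast at h1
  nlinarith

end Pool.Agent.Lib.MP561634
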