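import Pool.Agent.Lib.MP_561634_an.Rolle
import Pool.Agent.Lib.MP_561634_an.Weights

set_option autoImplicit false

namespace Pool.Agent.Lib.MP561634

open Polynomial

/-- the factor `|1 - 1/(l+1/2)^2|` truncated at one -/
noncomputable def th (l : ℕ) : ℝ := if l = 0 then 1 else (2 * l - 1) * (2 * l + 3) / (2 * l + 1) ^ 2

lemma th_pos (l : ℕ) : 0 < th l := by
  unfold th
  split_ifs with h
  · norm_num
  · have : (1 : ℝ) ≤ l := by exact_mod_cast Nat.one_le_iff_ne_zero.2 h
    apply div_pos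
    · apply mul_pos <;> linarith
    · positivity

lemma th_le_one (l : ℕ) : th l ≤ 1 := by
  unfold th
  split_ifs with h
  · norm_num
  · rw [div_le_one (by positivity)]
    nlinarith

lemma prod_range_th (L : ℕ) : ∏ l ∈ Finset.range (L + 1), th l = (2 * L + 3) / (3 * (2 * L + 1)) := by
  induction L with
  | zero => simp [th]
  | succ L ih =>
    rw [Finset.prod_range_succ, ih]
    unfold th
    rw [if_neg (Nat.succ_ne_zero L)]
    push_cast
    have h1 : (2 * (L : ℝ) + 1) ≠ 0 := by positivity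
    have h2 : (2 * ((L : ℝ) + 1) + 1) ≠ 0 := by positivity
    field_simp
    ring

lemma prod_th_ge (A : Finset ℕ) : (1 / 3 : ℝ) ≤ ∏ l ∈ A, th l := by
  classical
  obtain ⟨L, hL⟩ : ∃ L, A ⊆ Finset.range (L + 1) := by
    refine ⟨A.sup id, fun l hl => ?_⟩
    rw [Finset.mem_range]
    exact Nat.lt_succ_of_le (Finset.le_sup (f := id) hl)
  have h1 : ∏ l ∈ Finset.range (L + 1), th l ≤ ∏ l ∈ A, th l := by
    rw [← Finset.prod_sdiff hL]
    have h2 : ∏ l ∈ Finset.range (L + 1) \ A, th l ≤ 1 :=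
      Finset.prod_le_one (fun l _ => (th_pos l).le) (fun l _ => th_le_one l)
    have h3 : 0 ≤ ∏ l ∈ A, th l := Finset.prod_nonneg fun l _ => (th_pos l).le
    exact mul_le_of_le_one_left h3 h2
  refine le_trans ?_ h1
  rw [prod_range_th]
  rw [le_div_iff₀ (by positivity)]
  linarith

/-- one factor -/
lemma factor_ge (k m : ℕ) :
    th (if k + 1 ≤ m then m - (k + 1) else k - m) * ((((k + 1 : ℕ) : ℝ) - (m + 1 / 2)) ^ 2)
      ≤ |((k + 2 : ℕ) : ℝ) - (m + 1 / 2)| * |((k : ℕ) : ℝ) - (m + 1 / 2)| := by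
  rw [← abs_mul]
  split_ifs with h
  · obtain ⟨l, rfl⟩ := Nat.exists_eq_add_of_le h
    rw [Nat.add_sub_cancel_left]
    unfold th
    split_ifs with hl
    · subst hl
      push_cast
      have : ((k : ℝ) + 2 - (k + 1 + 0 + 1 / 2)) * (k - (k + 1 + 0 + 1 / 2)) = -(3 / 4) := by ring
      rw [this]
      rw [abs_neg, abs_of_pos (by norm_num)]
      have : ((k : ℝ) + 1 - (k + 1 + 0 + 1 / 2)) ^ 2 = 1 / 4 := by ring
      rw [this]; norm_num
    · have hl1 : (1 : ℝ) ≤ l := by exact_mod_cast Nat.one_le_iff_ne_zero.2 hl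
      push_cast
      refine le_trans (le_of_eq ?_) (le_abs_self _)
      have : (2 * (l : ℝ) + 1) ≠ 0 := by positivity
      field_simp
      ring
  · obtain ⟨l, rfl⟩ := Nat.exists_eq_add_of_le (show m ≤ k by omega)
    rw [Nat.add_sub_cancel_left]
    unfold th
    split_ifs with hl
    · subst hl
      push_cast
      have : ((m : ℝ) + 0 + 2 - (m + 1 / 2)) * (m + 0 - (m + 1 / 2)) = -(3 / 4) := by ring
      rw [this]
      rw [abs_neg, abs_of_pos (by norm_num)]
      have : ((m : ℝ) + 0 + 1 - (m + 1 / 2)) ^ 2 = 1 / 4 := by ring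
      rw [this]; norm_num
    · have hl1 : (1 : ℝ) ≤ l := by exact_mod_cast Nat.one_le_iff_ne_zero.2 hl
      push_cast
      refine le_trans (le_of_eq ?_) (le_abs_self _)
      have : (2 * (l : ℝ) + 1) ≠ 0 := by positivity
      field_simp
      ring

lemma PK_convex (K : Finset ℕ) (k : ℕ) :
    (1 / 9 : ℝ) * |PK K (k + 1)| ^ 2 ≤ |PK K (k + 2)| * |PK K k| := by
  classical
  have h1 : (∏ m ∈ K, th (if k + 1 ≤ m then m - (k + 1) else k - m)) * |PK K (k + 1)| ^ 2
      ≤ |PK K (k + 2)| * |PK K k| := by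
    unfold PK
    rw [Finset.abs_prod, Finset.abs_prod, Finset.abs_prod, ← Finset.prod_pow,
      ← Finset.prod_mul_distrib, ← Finset.prod_mul_distrib]
    refine Finset.prod_le_prod (fun m _ => mul_nonneg (th_pos _).le (by positivity)) fun m _ => ?_
    rw [sq_abs]
    exact factor_ge k m
  refine le_trans ?_ h1
  refine mul_le_mul_of_nonneg_right ?_ (by positivity)
  rw [← Finset.prod_filter_mul_prod_filter_not K (fun m => k + 1 ≤ m)]
  have hA : (1 / 3 : ℝ) ≤ ∏ m ∈ K.filter (fun m => k + 1 ≤ m),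
      th (if k + 1 ≤ m then m - (k + 1) else k - m) := by
    have : ∏ m ∈ K.filter (fun m => k + 1 ≤ m), th (if k + 1 ≤ m then m - (k + 1) else k - m)
        = ∏ l ∈ (K.filter (fun m => k + 1 ≤ m)).image (fun m => m - (k + 1)), th l := by
      rw [Finset.prod_image]
      · refine Finset.prod_congr rfl fun m hm => ?_
        rw [Finset.mem_filter] at hm
        rw [if_pos hm.2]
      · intro a ha b hb hab
        simp only [Finset.coe_filter, Set.mem_ofPred_eq] at ha hb
        dsimp only at hab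
        omega
    rw [this]
    exact prod_th_ge _
  have hB : (1 / 3 : ℝ) ≤ ∏ m ∈ K.filter (fun m => ¬ k + 1 ≤ m),
      th (if k + 1 ≤ m then m - (k + 1) else k - m) := by
    have : ∏ m ∈ K.filter (fun m => ¬ k + 1 ≤ m), th (if k + 1 ≤ m then m - (k + 1) else k - m)
        = ∏ l ∈ (K.filter (fun m => ¬ k + 1 ≤ m)).image (fun m => k - m), th l := by
      rw [Finset.prod_image]
      · refine Finset.prod_congr rfl fun m hm => ?_
        rw [Finset.mem_filter] at hm
        rw [if_neg hm.2]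
      · intro a ha b hb hab
        simp only [Finset.coe_filter, Set.mem_ofPred_eq] at ha hb
        dsimp only at hab
        omega
    rw [this]
    exact prod_th_ge _
  calc (1 / 9 : ℝ) = 1 / 3 * (1 / 3) := by norm_num
    _ ≤ _ := mul_le_mul hA hB (by norm_num) (le_trans (by norm_num) hA)

end Pool.Agent.Lib.MP561634
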