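import Pool.Agent.Lib.MP_561634_an.HalfProd

set_option autoImplicit false

namespace Pool.Agent.Lib.MP561634

open Polynomial

/-- `k` is a dominant index of the coefficient sequence `g`, as seen at the point `y`. -/
def Dom (g : ℕ → ℝ) (k : ℕ) (y : ℝ) : Prop :=
  g k ≠ 0 ∧ 0 < y ∧ ∀ j, j ≠ k → |g j| * y ^ j ≤ wt (nd j k) * (|g k| * y ^ k)

lemma dom_lt (g : ℕ → ℝ) {k k' : ℕ} {y y' : ℝ} (h : Dom g k y) (h' : Dom g k' y') (hk : k < k') :
    y < y' := by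
  by_contra hle
  push Not at hle
  obtain ⟨h1, h2, h3⟩ := h
  obtain ⟨h1', h2', h3'⟩ := h'
  have h4 := h3 k' hk.ne'
  have h5 := h3' k hk.ne
  have hw := wt_lt_one (nd k k') (nd_pos hk.ne)
  rw [nd_comm k' k] at h4
  obtain ⟨l, rfl⟩ := Nat.exists_eq_add_of_le hk.le
  have hgk : 0 < |g k| := abs_pos.2 h1
  have hgk' : 0 < |g (k + l)| := abs_pos.2 h1'
  rw [pow_add] at h4 h5
  have hyk : 0 < y ^ k := pow_pos h2 k
  have hyk' : 0 < y' ^ k := pow_pos h2' k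
  have h6 : |g (k + l)| * y ^ l < |g k| := by
    have : |g (k + l)| * y ^ l * y ^ k < |g k| * y ^ k := by
      calc |g (k + l)| * y ^ l * y ^ k = |g (k + l)| * (y ^ k * y ^ l) := by ring
        _ ≤ wt (nd k (k + l)) * (|g k| * y ^ k) := h4
        _ < 1 * (|g k| * y ^ k) := by
            apply mul_lt_mul_of_pos_right hw (by positivity)
        _ = |g k| * y ^ k := one_mul _
    exact lt_of_mul_lt_mul_right this hyk.le
  have h7 : |g k| < |g (k + l)| * y' ^ l := by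
    have : |g k| * y' ^ k < |g (k + l)| * y' ^ l * y' ^ k := by
      calc |g k| * y' ^ k ≤ wt (nd k (k + l)) * (|g (k + l)| * (y' ^ k * y' ^ l)) := h5
        _ < 1 * (|g (k + l)| * (y' ^ k * y' ^ l)) := by
            apply mul_lt_mul_of_pos_right hw (by positivity)
        _ = |g (k + l)| * y' ^ l * y' ^ k := by ring
    exact lt_of_mul_lt_mul_right this hyk'.le
  have h8 : y' ^ l ≤ y ^ l := pow_le_pow_left₀ h2'.le hle l
  have h9 : |g (k + l)| * y' ^ l ≤ |g (k + l)| * y ^ l := mul_le_mul_of_nonneg_left h8 hgk'.le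
  linarith

lemma dom_eval (g : ℝ[X]) {k : ℕ} {y : ℝ} (h : Dom g.coeff k y) : 0 < g.eval y * g.coeff k := by
  classical
  obtain ⟨h1, h2, h3⟩ := h
  have hk : k ∈ Finset.range (g.natDegree + 1) := by
    rw [Finset.mem_range]
    exact Nat.lt_succ_of_le (le_natDegree_of_ne_zero h1)
  rw [eval_eq_sum_range, ← Finset.add_sum_erase _ _ hk]
  set R := ∑ j ∈ (Finset.range (g.natDegree + 1)).erase k, g.coeff j * y ^ j with hR
  have hR1 : |R| ≤ 19 / 20 * (|g.coeff k| * y ^ k) := by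
    calc |R| ≤ ∑ j ∈ (Finset.range (g.natDegree + 1)).erase k, |g.coeff j * y ^ j| :=
          Finset.abs_sum_le_sum_abs _ _
      _ ≤ ∑ j ∈ (Finset.range (g.natDegree + 1)).erase k, wt (nd j k) * (|g.coeff k| * y ^ k) := by
          refine Finset.sum_le_sum fun j hj => ?_
          rw [abs_mul, abs_of_pos (pow_pos h2 j)]
          exact h3 j (Finset.ne_of_mem_erase hj)
      _ = (∑ j ∈ (Finset.range (g.natDegree + 1)).erase k, wt (nd j k)) * (|g.coeff k| * y ^ k) := by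
          rw [Finset.sum_mul]
      _ ≤ 2 * (19 / 40) * (|g.coeff k| * y ^ k) := by
          refine mul_le_mul_of_nonneg_right ?_ (by positivity)
          exact sum_nd_le wt (19 / 40) sum_wt_le _ k (Finset.notMem_erase k _)
      _ = 19 / 20 * (|g.coeff k| * y ^ k) := by ring
  have hgk : 0 < |g.coeff k| := abs_pos.2 h1
  have hyk : 0 < y ^ k := pow_pos h2 k
  have h4 : (g.coeff k * y ^ k + R) * g.coeff k = |g.coeff k| ^ 2 * y ^ k + R * g.coeff k := by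
    rw [sq_abs]; ring
  rw [h4]
  have h5 : |R * g.coeff k| ≤ 19 / 20 * (|g.coeff k| ^ 2 * y ^ k) := by
    rw [abs_mul]
    calc |R| * |g.coeff k| ≤ 19 / 20 * (|g.coeff k| * y ^ k) * |g.coeff k| :=
          mul_le_mul_of_nonneg_right hR1 hgk.le
      _ = 19 / 20 * (|g.coeff k| ^ 2 * y ^ k) := by ring
  have h6 := neg_abs_le (R * g.coeff k)
  have h7 : 0 < |g.coeff k| ^ 2 * y ^ k := by positivity
  linarith

lemma nondom_step (g a : ℕ → ℝ) (c : ℝ) (hc : Real.exp (-c) ≤ 3 / 20)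
    (ha : ∀ k, 2 * a (k + 1) + 2 * c ≤ a (k + 2) + a k) (k : ℕ) (hk : g k ≠ 0)
    (hnd : ¬ ∃ y, Dom g k y) (x : ℝ) (hx : 0 < x) :
    ∃ j, j ≠ k ∧ Real.exp (a k) * |g k| * x ^ k
      < (8 / 25 : ℝ) ^ (nd j k) * (Real.exp (a j) * |g j| * x ^ j) := by
  obtain ⟨s, hs⟩ := quad_support a c ha k
  have hy : 0 < x * Real.exp s := by positivity
  have h1 : ∃ j, j ≠ k ∧ wt (nd j k) * (|g k| * (x * Real.exp s) ^ k)
      < |g j| * (x * Real.exp s) ^ j := by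
    by_contra hcon
    push Not at hcon
    exact hnd ⟨x * Real.exp s, hk, hy, hcon⟩
  obtain ⟨j, hjk, hj⟩ := h1
  refine ⟨j, hjk, ?_⟩
  set l := nd j k with hl
  rw [mul_pow, mul_pow, ← Real.exp_nat_mul, ← Real.exp_nat_mul] at hj
  have hl2 : ((j : ℝ) - k) ^ 2 = ((l ^ 2 : ℕ) : ℝ) := by
    rw [hl]
    unfold nd
    rcases le_total j k with h | h
    · have h' : j - k = 0 := by omega
      rw [h', zero_add]
      push_cast [Nat.cast_sub h]
      ring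
    · have h' : k - j = 0 := by omega
      rw [h', add_zero]
      push_cast [Nat.cast_sub h]
      ring
  have h2 : Real.exp (a k + s * ((j : ℝ) - k)) * Real.exp (c * ((l ^ 2 : ℕ) : ℝ)) ≤ Real.exp (a j) := by
    rw [← Real.exp_add, Real.exp_le_exp, ← hl2]
    exact hs j
  have h3 : Real.exp (-(c * ((l ^ 2 : ℕ) : ℝ))) ≤ (3 / 20 : ℝ) ^ (l ^ 2) := by
    have : -(c * ((l ^ 2 : ℕ) : ℝ)) = ((l ^ 2 : ℕ) : ℝ) * (-c) := by ring
    rw [this, Real.exp_nat_mul]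
    exact pow_le_pow_left₀ (Real.exp_pos _).le hc _
  have h4 : wt l = (3 / 20 : ℝ) ^ (l ^ 2) / (8 / 25 : ℝ) ^ l := rfl
  have h5 : Real.exp (-(c * ((l ^ 2 : ℕ) : ℝ))) / (8 / 25 : ℝ) ^ l ≤ wt l := by
    rw [h4]
    gcongr
  have h6 : Real.exp (-(c * ((l ^ 2 : ℕ) : ℝ))) / (8 / 25 : ℝ) ^ l
      * (|g k| * (x ^ k * Real.exp (k * s))) < |g j| * (x ^ j * Real.exp (j * s)) := by
    refine lt_of_le_of_lt ?_ hj
    exact mul_le_mul_of_nonneg_right h5 (by positivity)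
  have hE : 0 < Real.exp (a k) * Real.exp (-(s * k)) * Real.exp (c * ((l ^ 2 : ℕ) : ℝ))
      * (8 / 25 : ℝ) ^ l := by positivity
  have h7 := mul_lt_mul_of_pos_left h6 hE
  have h8 : Real.exp (a k) * Real.exp (-(s * k)) * Real.exp (c * ((l ^ 2 : ℕ) : ℝ))
      * (8 / 25 : ℝ) ^ l * (Real.exp (-(c * ((l ^ 2 : ℕ) : ℝ))) / (8 / 25 : ℝ) ^ l
      * (|g k| * (x ^ k * Real.exp (k * s)))) = Real.exp (a k) * |g k| * x ^ k := by
    rw [Real.exp_neg, Real.exp_neg, mul_comm (k : ℝ) s]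
    field_simp
  have h9 : Real.exp (a k) * Real.exp (-(s * k)) * Real.exp (c * ((l ^ 2 : ℕ) : ℝ))
      * (8 / 25 : ℝ) ^ l * (|g j| * (x ^ j * Real.exp (j * s)))
      = (8 / 25 : ℝ) ^ l * ((Real.exp (a k + s * ((j : ℝ) - k)) * Real.exp (c * ((l ^ 2 : ℕ) : ℝ)))
        * |g j| * x ^ j) := by
    have : a k + s * ((j : ℝ) - k) = a k + (-(s * k)) + j * s := by ring
    rw [this, Real.exp_add, Real.exp_add]
    ring
  rw [h8, h9] at h7
  refine lt_of_lt_of_le h7 ?_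
  gcongr

lemma chain (u : ℕ → ℝ) (n : ℕ) (hu0 : ∀ k, 0 ≤ u k) (hun : ∀ k, n < k → u k = 0) (S : Finset ℕ)
    (hstep : ∀ k, k ∉ S → u k ≠ 0 → ∃ j, j ≠ k ∧ u k < (8 / 25 : ℝ) ^ (nd j k) * u j) (k : ℕ)
    (hk : u k ≠ 0) : ∃ j ∈ S, u k ≤ (8 / 25 : ℝ) ^ (nd j k) * u j := by
  classical
  by_contra hcon
  set V := (Finset.range (n + 1)).filter
    (fun k => u k ≠ 0 ∧ ¬ ∃ j ∈ S, u k ≤ (8 / 25 : ℝ) ^ (nd j k) * u j) with hV
  have hle : ∀ k, u k ≠ 0 → k ∈ Finset.range (n + 1) := by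
    intro k hk
    rw [Finset.mem_range]
    by_contra h
    exact hk (hun k (by omega))
  have hne : V.Nonempty := ⟨k, by rw [hV, Finset.mem_filter]; exact ⟨hle k hk, hk, hcon⟩⟩
  obtain ⟨i, hiV, hi⟩ := V.exists_max_image u hne
  rw [hV, Finset.mem_filter] at hiV
  obtain ⟨-, hi0, hi2⟩ := hiV
  have hiS : i ∉ S := by
    intro h
    exact hi2 ⟨i, h, by simp [nd]⟩
  obtain ⟨j, hji, hj⟩ := hstep i hiS hi0
  have hpow : ∀ m : ℕ, (8 / 25 : ℝ) ^ m ≤ 1 := fun m => pow_le_one₀ (by norm_num) (by norm_num)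
  have huj : u i < u j := lt_of_lt_of_le hj (mul_le_of_le_one_left (hu0 j) (hpow _))
  have huj0 : u j ≠ 0 := by
    have := hu0 i
    exact (lt_of_le_of_lt this huj).ne'
  have hjV : ∃ m ∈ S, u j ≤ (8 / 25 : ℝ) ^ (nd m j) * u m := by
    by_contra h
    have hjV : j ∈ V := by
      rw [hV, Finset.mem_filter]
      exact ⟨hle j huj0, huj0, h⟩
    have := hi j hjV
    linarith
  obtain ⟨m, hmS, hm⟩ := hjV
  apply hi2
  refine ⟨m, hmS, ?_⟩
  calc u i ≤ (8 / 25 : ℝ) ^ (nd j i) * u j := hj.le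
    _ ≤ (8 / 25 : ℝ) ^ (nd j i) * ((8 / 25 : ℝ) ^ (nd m j) * u m) := by gcongr
    _ = (8 / 25 : ℝ) ^ (nd j i + nd m j) * u m := by rw [pow_add]; ring
    _ ≤ (8 / 25 : ℝ) ^ (nd m i) * u m := by
        refine mul_le_mul_of_nonneg_right ?_ (hu0 m)
        apply pow_le_pow_of_le_one (by norm_num) (by norm_num)
        have := nd_tri m j i
        omega

lemma sum_dominated (u : ℕ → ℝ) (n : ℕ) (hu0 : ∀ k, 0 ≤ u k) (hun : ∀ k, n < k → u k = 0)
    (S : Finset ℕ) (hstep : ∀ k, k ∉ S → u k ≠ 0 → ∃ j, j ≠ k ∧ u k < (8 / 25 : ℝ) ^ (nd j k) * u j)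
    (hex : ∃ k, u k ≠ 0) :
    ∑ k ∈ Finset.range (n + 1) \ S, u k < ∑ k ∈ S, u k := by
  classical
  have hch := chain u n hu0 hun S hstep
  have hSpos : 0 < ∑ k ∈ S, u k := by
    obtain ⟨k, hk⟩ := hex
    obtain ⟨j, hjS, hj⟩ := hch k hk
    have h1 : 0 < u k := lt_of_le_of_ne (hu0 k) (Ne.symm hk)
    have h2 : u j ≠ 0 := by
      rintro h
      rw [h, mul_zero] at hj
      linarith
    exact Finset.sum_pos' (fun i _ => hu0 i) ⟨j, hjS, lt_of_le_of_ne (hu0 j) (Ne.symm h2)⟩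
  have h1 : ∑ k ∈ Finset.range (n + 1) \ S, u k
      ≤ ∑ k ∈ Finset.range (n + 1) \ S, ∑ j ∈ S, (8 / 25 : ℝ) ^ (nd j k) * u j := by
    refine Finset.sum_le_sum fun k _ => ?_
    by_cases hk : u k = 0
    · rw [hk]
      exact Finset.sum_nonneg fun j _ => mul_nonneg (by positivity) (hu0 j)
    · obtain ⟨j, hjS, hj⟩ := hch k hk
      refine hj.trans ?_
      exact Finset.single_le_sum (f := fun j => (8 / 25 : ℝ) ^ (nd j k) * u j)
        (fun j _ => mul_nonneg (by positivity) (hu0 j)) hjS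
  rw [Finset.sum_comm] at h1
  have h2 : ∑ j ∈ S, ∑ k ∈ Finset.range (n + 1) \ S, (8 / 25 : ℝ) ^ (nd j k) * u j
      ≤ ∑ j ∈ S, (16 / 17 : ℝ) * u j := by
    refine Finset.sum_le_sum fun j hj => ?_
    rw [← Finset.sum_mul]
    refine mul_le_mul_of_nonneg_right ?_ (hu0 j)
    have h3 : ∑ k ∈ Finset.range (n + 1) \ S, (8 / 25 : ℝ) ^ (nd j k)
        = ∑ k ∈ Finset.range (n + 1) \ S, (8 / 25 : ℝ) ^ (nd k j) :=
      Finset.sum_congr rfl fun k _ => by rw [nd_comm]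
    rw [h3]
    have h4 := sum_nd_le (fun l => (8 / 25 : ℝ) ^ l) (8 / 25 / (1 - 8 / 25))
      (fun B hB => sum_geom_le (8 / 25) (by norm_num) (by norm_num) B hB)
      (Finset.range (n + 1) \ S) j (by simp [hj])
    refine h4.trans ?_
    norm_num
  rw [← Finset.mul_sum] at h2
  linarith

end Pool.Agent.Lib.MP561634
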