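import Mathlib

set_option autoImplicit false

namespace Pool.Agent.Lib.MP561634

open Polynomial

/-- Number of positive roots of a real polynomial, counted with multiplicity. -/
noncomputable def npos (p : ℝ[X]) : ℕ := (p.roots.filter (fun x => 0 < x)).card

lemma npos_eq_sum (p : ℝ[X]) :
    npos p = ∑ x ∈ p.roots.toFinset.filter (fun x => 0 < x), p.rootMultiplicity x := by
  classical
  unfold npos
  rw [← Multiset.toFinset_sum_count_eq, Multiset.toFinset_filter]
  refine Finset.sum_congr rfl fun x hx => ?_
  rw [Finset.mem_filter] at hx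
  rw [Multiset.count_filter_of_pos hx.2, count_roots]

lemma rootMultiplicity_rolle (p : ℝ[X]) (κ x : ℝ) (hq : X * derivative p - C κ * p ≠ 0) :
    p.rootMultiplicity x - 1 ≤ (X * derivative p - C κ * p).rootMultiplicity x := by
  rw [le_rootMultiplicity_iff hq]
  have h1 : (X - C x) ^ (p.rootMultiplicity x - 1) ∣ derivative p := by
    by_cases hd : derivative p = 0
    · rw [hd]; exact dvd_zero _
    · exact (le_rootMultiplicity_iff hd).1
        (rootMultiplicity_sub_one_le_derivative_rootMultiplicity p x)
  have h2 : (X - C x) ^ (p.rootMultiplicity x - 1) ∣ p :=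
    (pow_dvd_pow _ (Nat.sub_le _ _)).trans (pow_rootMultiplicity_dvd p x)
  exact dvd_sub (h1.mul_left _) (h2.mul_left _)

lemma exists_root_between (p : ℝ[X]) (κ x y : ℝ) (hx : 0 < x) (hxy : x < y)
    (hpx : p.eval x = 0) (hpy : p.eval y = 0) :
    ∃ z, x < z ∧ z < y ∧ (X * derivative p - C κ * p).eval z = 0 := by
  have hd : ∀ z : ℝ, 0 < z → HasDerivAt (fun z => Real.exp (-κ * Real.log z) * p.eval z)
      (Real.exp (-κ * Real.log z) * (-κ * z⁻¹) * p.eval z
        + Real.exp (-κ * Real.log z) * (derivative p).eval z) z := by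
    intro z hz
    have h1 : HasDerivAt (fun z => -κ * Real.log z) (-κ * z⁻¹) z :=
      (Real.hasDerivAt_log hz.ne').const_mul (-κ)
    exact h1.exp.mul (p.hasDerivAt z)
  have hcont : ContinuousOn (fun z => Real.exp (-κ * Real.log z) * p.eval z) (Set.Icc x y) := by
    intro z hz
    exact (hd z (lt_of_lt_of_le hx hz.1)).continuousAt.continuousWithinAt
  obtain ⟨z, hz, hz0⟩ := exists_hasDerivAt_eq_zero hxy hcont (by simp [hpx, hpy])
    (fun z hz => hd z (lt_trans hx hz.1))
  refine ⟨z, hz.1, hz.2, ?_⟩
  have hzpos : 0 < z := lt_trans hx hz.1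
  have hexp : Real.exp (-κ * Real.log z) ≠ 0 := Real.exp_ne_zero _
  have h3 : -κ * z⁻¹ * p.eval z + (derivative p).eval z = 0 := by
    have : Real.exp (-κ * Real.log z) * (-κ * z⁻¹ * p.eval z + (derivative p).eval z) = 0 := by
      rw [← hz0]; ring
    exact (mul_eq_zero.1 this).resolve_left hexp
  have h4 : z * (-κ * z⁻¹ * p.eval z + (derivative p).eval z) = 0 := by rw [h3, mul_zero]
  simp only [eval_sub, eval_mul, eval_X, eval_C]
  rw [← h4]
  field_simp
  ring

/-- Rolle's theorem for `x ^ (-κ) * p x` on the positive half line, with multiplicities. -/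
lemma npos_le_rolle (p : ℝ[X]) (κ : ℝ) (hq : X * derivative p - C κ * p ≠ 0) :
    npos p ≤ npos (X * derivative p - C κ * p) + 1 := by
  classical
  set q := X * derivative p - C κ * p with hqdef
  have hp : p ≠ 0 := by
    rintro rfl
    apply hq
    simp [hqdef]
  set s := p.roots.toFinset.filter (fun x => 0 < x) with hs
  set t := q.roots.toFinset.filter (fun x => 0 < x) with ht
  have hcard : s.card ≤ (t \ s).card + 1 := by
    refine Finset.card_le_sdiff_of_interleaved fun x hx y hy hxy hxy' => ?_
    rw [hs, Finset.mem_filter, Multiset.mem_toFinset, mem_roots hp] at hx hy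
    obtain ⟨z, hz1, hz2, hz3⟩ := exists_root_between p κ x y hx.2 hxy hx.1 hy.1
    refine ⟨z, ?_, hz1, hz2⟩
    rw [ht, Finset.mem_filter, Multiset.mem_toFinset, mem_roots hq]
    exact ⟨hz3, lt_trans hx.2 hz1⟩
  calc npos p = ∑ x ∈ s, p.rootMultiplicity x := npos_eq_sum p
    _ = ∑ x ∈ s, (p.rootMultiplicity x - 1 + 1) := by
        refine Finset.sum_congr rfl fun x hx => ?_
        rw [hs, Finset.mem_filter, Multiset.mem_toFinset, mem_roots hp] at hx
        have : 0 < p.rootMultiplicity x := (rootMultiplicity_pos hp).2 hx.1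
        omega
    _ = (∑ x ∈ s, (p.rootMultiplicity x - 1)) + s.card := by
        rw [Finset.sum_add_distrib, Finset.card_eq_sum_ones]
    _ ≤ (∑ x ∈ s, q.rootMultiplicity x) + ((t \ s).card + 1) :=
        add_le_add (Finset.sum_le_sum fun x _ => rootMultiplicity_rolle p κ x hq) hcard
    _ ≤ (∑ x ∈ s, q.rootMultiplicity x) + ((∑ x ∈ t \ s, q.rootMultiplicity x) + 1) := by
        gcongr
        rw [Finset.card_eq_sum_ones]
        refine Finset.sum_le_sum fun x hx => ?_
        rw [Finset.mem_sdiff, ht, Finset.mem_filter, Multiset.mem_toFinset, mem_roots hq] at hx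
        exact (rootMultiplicity_pos hq).2 hx.1.1
    _ = (∑ x ∈ s ∪ t, q.rootMultiplicity x) + 1 := by
        rw [← add_assoc, ← Finset.sum_union Finset.disjoint_sdiff, Finset.union_sdiff_self_eq_union]
    _ = npos q + 1 := by
        rw [npos_eq_sum q]
        congr 1
        symm
        refine Finset.sum_subset Finset.subset_union_right fun x hx hxt => ?_
        rw [Finset.mem_union] at hx
        have hxs : x ∈ s := hx.resolve_right hxt
        rw [hs, Finset.mem_filter] at hxs
        rw [← count_roots, Multiset.count_eq_zero]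
        intro hmem
        apply hxt
        rw [Finset.mem_filter, Multiset.mem_toFinset]
        exact ⟨hmem, hxs.2⟩

/-- The diagonal operator `∑ a_n x^n ↦ ∑ a_n w_n x^n`. -/
noncomputable def diag (w : ℕ → ℝ) (p : ℝ[X]) : ℝ[X] :=
  ∑ n ∈ p.support, C (p.coeff n * w n) * X ^ n

@[simp] lemma coeff_diag (w : ℕ → ℝ) (p : ℝ[X]) (k : ℕ) :
    (diag w p).coeff k = p.coeff k * w k := by
  classical
  unfold diag
  rw [finsetSum_coeff]
  simp only [coeff_C_mul_X_pow]
  rw [Finset.sum_ite_eq]
  split_ifs with h
  · rfl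
  · rw [notMem_support_iff] at h
    rw [h, zero_mul]

/-- The polynomial in the index with zeros at the half integers `m + 1/2`, `m ∈ K`. -/
noncomputable def PK (K : Finset ℕ) (j : ℕ) : ℝ := ∏ m ∈ K, ((j : ℝ) - (m + 1 / 2))

lemma factor_ne_zero (j m : ℕ) : ((j : ℝ) - (m + 1 / 2)) ≠ 0 := by
  intro h
  have h2 : (2 * j : ℝ) = 2 * m + 1 := by linarith
  have h3 : 2 * j = 2 * m + 1 := by exact_mod_cast h2
  omega

lemma PK_ne_zero (K : Finset ℕ) (j : ℕ) : PK K j ≠ 0 := by
  unfold PK
  exact Finset.prod_ne_zero_iff.2 fun m _ => factor_ne_zero j m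

lemma npos_le_diag_PK (p : ℝ[X]) (hp : p ≠ 0) (K : Finset ℕ) :
    npos p ≤ npos (diag (PK K) p) + K.card := by
  classical
  induction K using Finset.induction_on with
  | empty =>
    have : diag (PK ∅) p = p := by
      ext k
      simp [PK]
    rw [this]; simp
  | insert m K hm ih =>
    have hdiag : diag (PK (insert m K)) p
        = X * derivative (diag (PK K) p) - C ((m : ℝ) + 1 / 2) * diag (PK K) p := by
      ext k
      rw [coeff_sub, coeff_C_mul, coeff_diag, coeff_diag]
      cases k with
      | zero =>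
        rw [mul_coeff_zero, coeff_X_zero, zero_mul]
        unfold PK
        rw [Finset.prod_insert hm]
        push_cast
        ring
      | succ k =>
        rw [coeff_X_mul, coeff_derivative, coeff_diag]
        unfold PK
        rw [Finset.prod_insert hm]
        push_cast
        ring
    have hne : diag (PK (insert m K)) p ≠ 0 := by
      intro h0
      apply hp
      ext k
      have := congrArg (fun q => q.coeff k) h0
      simp only [coeff_diag, coeff_zero] at this
      rw [coeff_zero]
      exact (mul_eq_zero.1 this).resolve_right (PK_ne_zero _ _)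
    have h1 := npos_le_rolle (diag (PK K) p) ((m : ℝ) + 1 / 2) (by rw [← hdiag]; exact hne)
    rw [← hdiag] at h1
    rw [Finset.card_insert_of_notMem hm]
    omega

end Pool.Agent.Lib.MP561634
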