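import Pool.Agent.Lib.MP_561634_an.Main

set_option autoImplicit false

namespace Pool.Agent.Lib.MP561634

open Polynomial

/-- the last element of `S` which is at most `j`, or the first element of `S` -/
noncomputable def lastEl (S : Finset ℕ) (hS : S.Nonempty) (j : ℕ) : ℕ :=
  if h : (S.filter (fun i => i ≤ j)).Nonempty then (S.filter (fun i => i ≤ j)).max' h else S.min' hS

lemma lastEl_mem (S : Finset ℕ) (hS : S.Nonempty) (j : ℕ) : lastEl S hS j ∈ S := by
  unfold lastEl
  split_ifs with h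
  · exact (Finset.mem_filter.1 (Finset.max'_mem _ h)).1
  · exact Finset.min'_mem _ _

lemma lastEl_of_mem (S : Finset ℕ) (hS : S.Nonempty) {j : ℕ} (hj : j ∈ S) : lastEl S hS j = j := by
  unfold lastEl
  have hj' : j ∈ S.filter (fun i => i ≤ j) := Finset.mem_filter.2 ⟨hj, le_refl j⟩
  rw [dif_pos ⟨j, hj'⟩]
  apply le_antisymm
  · exact (Finset.mem_filter.1 (Finset.max'_mem _ ⟨j, hj'⟩)).2
  · exact Finset.le_max' _ _ hj'

lemma lastEl_succ (S : Finset ℕ) (hS : S.Nonempty) (j : ℕ) :
    lastEl S hS (j + 1) = lastEl S hS j ∨ (lastEl S hS (j + 1) = j + 1 ∧ lastEl S hS j ≤ j) := by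
  classical
  by_cases hj : j + 1 ∈ S
  · have h1 := lastEl_of_mem S hS hj
    by_cases h : (S.filter (fun i => i ≤ j)).Nonempty
    · right
      refine ⟨h1, ?_⟩
      unfold lastEl
      rw [dif_pos h]
      exact (Finset.mem_filter.1 (Finset.max'_mem _ h)).2
    · left
      rw [h1]
      unfold lastEl
      rw [dif_neg h]
      rw [Finset.not_nonempty_iff_eq_empty] at h
      have h2 : ∀ i ∈ S, j + 1 ≤ i := by
        intro i hi
        by_contra hlt
        have : i ∈ S.filter (fun i => i ≤ j) := Finset.mem_filter.2 ⟨hi, by omega⟩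
        rw [h] at this
        exact absurd this (Finset.notMem_empty i)
      apply le_antisymm
      · exact h2 _ (Finset.min'_mem S hS)
      · exact Finset.min'_le S _ hj
  · left
    have h3 : S.filter (fun i => i ≤ j + 1) = S.filter (fun i => i ≤ j) := by
      ext i
      simp only [Finset.mem_filter]
      constructor
      · rintro ⟨h1, h2⟩
        refine ⟨h1, ?_⟩
        have : i ≠ j + 1 := by rintro rfl; exact hj h1
        omega
      · rintro ⟨h1, h2⟩
        exact ⟨h1, by omega⟩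
    unfold lastEl
    simp only [h3]

lemma lastEl_mono (S : Finset ℕ) (hS : S.Nonempty) : Monotone (lastEl S hS) := by
  apply monotone_nat_of_le_succ
  intro j
  rcases lastEl_succ S hS j with h | ⟨h1, h2⟩
  · rw [h]
  · rw [h1]; omega

lemma PK_mul_succ (K : Finset ℕ) (j : ℕ) :
    PK K j * PK K (j + 1) = ∏ m ∈ K, (((j : ℝ) - m) ^ 2 - 1 / 4) := by
  unfold PK
  rw [← Finset.prod_mul_distrib]
  refine Finset.prod_congr rfl fun m _ => ?_
  push_cast
  ring

lemma sq_int_ge (j m : ℕ) (h : m ≠ j) : 0 < ((j : ℝ) - m) ^ 2 - 1 / 4 := by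
  have h1 : (1 : ℝ) ≤ ((j : ℝ) - m) ^ 2 := by
    have h2 : (1 : ℤ) ≤ ((j : ℤ) - m) ^ 2 := by
      have : ((j : ℤ) - m) ≠ 0 := by omega
      have := sq_pos_of_ne_zero this
      linarith
    exact_mod_cast h2
  linarith

lemma PK_sign (K : Finset ℕ) (j : ℕ) :
    (j ∈ K → PK K j * PK K (j + 1) < 0) ∧ (j ∉ K → 0 < PK K j * PK K (j + 1)) := by
  classical
  constructor
  · intro hj
    rw [PK_mul_succ, ← Finset.mul_prod_erase _ _ hj]
    apply mul_neg_of_neg_of_pos
    · simp
    · exact Finset.prod_pos fun m hm => sq_int_ge j m (Finset.ne_of_mem_erase hm)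
  · intro hj
    rw [PK_mul_succ]
    exact Finset.prod_pos fun m hm => sq_int_ge j m (by rintro rfl; exact hj hm)

/-- the set of sign change positions -/
noncomputable def KS (g : ℕ → ℝ) (S : Finset ℕ) (hS : S.Nonempty) (n : ℕ) : Finset ℕ :=
  (Finset.range n).filter (fun m => g (lastEl S hS m) * g (lastEl S hS (m + 1)) < 0)

lemma KS_sign (g : ℕ → ℝ) (S : Finset ℕ) (hS : S.Nonempty) (hg : ∀ k ∈ S, g k ≠ 0) (n : ℕ) (j : ℕ)
    (hj : j < n) :
    0 < (g (lastEl S hS j) * PK (KS g S hS n) j)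
      * (g (lastEl S hS (j + 1)) * PK (KS g S hS n) (j + 1)) := by
  have h1 : g (lastEl S hS j) * g (lastEl S hS (j + 1)) ≠ 0 :=
    mul_ne_zero (hg _ (lastEl_mem _ _ _)) (hg _ (lastEl_mem _ _ _))
  have hs := PK_sign (KS g S hS n) j
  have h2 : (g (lastEl S hS j) * PK (KS g S hS n) j)
      * (g (lastEl S hS (j + 1)) * PK (KS g S hS n) (j + 1))
      = (g (lastEl S hS j) * g (lastEl S hS (j + 1)))
        * (PK (KS g S hS n) j * PK (KS g S hS n) (j + 1)) := by ring
  rw [h2]
  by_cases hjK : j ∈ KS g S hS n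
  · have h3 : g (lastEl S hS j) * g (lastEl S hS (j + 1)) < 0 := (Finset.mem_filter.1 hjK).2
    exact mul_pos_of_neg_of_neg h3 (hs.1 hjK)
  · have h3 : 0 < g (lastEl S hS j) * g (lastEl S hS (j + 1)) := by
      rcases lt_or_gt_of_ne h1 with h | h
      · exact absurd (Finset.mem_filter.2 ⟨Finset.mem_range.2 hj, h⟩) hjK
      · exact h
    exact mul_pos h3 (hs.2 hjK)

lemma KS_sign_all (g : ℕ → ℝ) (S : Finset ℕ) (hS : S.Nonempty) (hg : ∀ k ∈ S, g k ≠ 0) (n : ℕ)
    (j : ℕ) (hj : j ≤ n) :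
    0 < (g (lastEl S hS 0) * PK (KS g S hS n) 0) * (g (lastEl S hS j) * PK (KS g S hS n) j) := by
  induction j with
  | zero =>
    have h1 : g (lastEl S hS 0) * PK (KS g S hS n) 0 ≠ 0 :=
      mul_ne_zero (hg _ (lastEl_mem _ _ _)) (PK_ne_zero _ _)
    exact mul_self_pos.2 h1
  | succ j ih =>
    have h1 := ih (by omega)
    have h2 := KS_sign g S hS hg n j (by omega)
    have h3 := mul_pos h1 h2
    set A := g (lastEl S hS 0) * PK (KS g S hS n) 0
    set B := g (lastEl S hS j) * PK (KS g S hS n) j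
    set D := g (lastEl S hS (j + 1)) * PK (KS g S hS n) (j + 1)
    have h4 : A * B * (B * D) = (A * D) * (B * B) := by ring
    rw [h4] at h3
    by_contra hcon
    push Not at hcon
    have := mul_nonpos_of_nonpos_of_nonneg hcon (mul_self_nonneg B)
    linarith

end Pool.Agent.Lib.MP561634
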