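import Pool.Agent.Lib.MP_561634_an.Final

set_option autoImplicit false

namespace Pool.Agent.Lib.MP561634

open Polynomial

lemma roots_partition (p : ℝ[X]) :
    p.roots.card = npos p + npos (p.comp (-X)) + p.rootMultiplicity 0 := by
  classical
  have h1 : npos (p.comp (-X)) = (p.roots.filter (fun x => x < 0)).card := by
    unfold npos
    rw [roots_comp_neg_X, Multiset.filter_map, Multiset.card_map]
    congr 1
    refine Multiset.filter_congr fun x _ => ?_
    simp
  have h2 : p.rootMultiplicity 0 = (p.roots.filter (fun x => x = 0)).card := by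
    rw [← count_roots, Multiset.count_eq_card_filter_eq]
    congr 1
    refine Multiset.filter_congr fun x _ => ?_
    exact eq_comm
  rw [h1, h2]
  unfold npos
  have h3 : p.roots.card = (p.roots.filter (fun x => 0 < x)).card
      + (p.roots.filter (fun x => ¬ 0 < x)).card := by
    rw [← Multiset.card_add, Multiset.filter_add_not]
  have h4 : (p.roots.filter (fun x => ¬ 0 < x)).card
      = (p.roots.filter (fun x => x < 0)).card + (p.roots.filter (fun x => x = 0)).card := by
    rw [← Multiset.filter_add_not (fun x => x < 0) (p.roots.filter (fun x => ¬ 0 < x)),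
      Multiset.card_add, Multiset.filter_filter, Multiset.filter_filter]
    congr 2
    · refine Multiset.filter_congr fun x _ => ?_
      constructor
      · rintro ⟨h, -⟩; exact h
      · intro h; exact ⟨h, not_lt.2 h.le⟩
    · refine Multiset.filter_congr fun x _ => ?_
      constructor
      · rintro ⟨h, h'⟩; exact le_antisymm (not_lt.1 h') (not_lt.1 h)
      · rintro rfl; simp
  omega

lemma diag_comp_neg (w : ℕ → ℝ) (p : ℝ[X]) : (diag w p).comp (-X) = diag w (p.comp (-X)) := by
  have h : ∀ q : ℝ[X], ∀ k, (q.comp (-X)).coeff k = q.coeff k * (-1) ^ k := by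
    intro q k
    have : (-X : ℝ[X]) = C (-1) * X := by simp
    rw [this, comp_C_mul_X_coeff]
  ext k
  rw [h, coeff_diag, coeff_diag, h]
  ring

lemma rootMultiplicity_diag (w : ℕ → ℝ) (hw : ∀ k, w k ≠ 0) (p : ℝ[X]) (hp : p ≠ 0) :
    (diag w p).rootMultiplicity 0 = p.rootMultiplicity 0 := by
  have hd : diag w p ≠ 0 := by
    intro h0
    apply hp
    ext k
    have := congrArg (fun q => q.coeff k) h0
    simp only [coeff_diag, coeff_zero] at this
    rw [coeff_zero]
    exact (mul_eq_zero.1 this).resolve_right (hw k)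
  have h1 : ∀ n, X ^ n ∣ diag w p ↔ X ^ n ∣ p := by
    intro n
    rw [X_pow_dvd_iff, X_pow_dvd_iff]
    simp only [coeff_diag, mul_eq_zero, hw, or_false]
  apply le_antisymm
  · rw [le_rootMultiplicity_iff hp]
    have := pow_rootMultiplicity_dvd (diag w p) 0
    simp only [map_zero, sub_zero] at this ⊢
    exact (h1 _).1 this
  · rw [le_rootMultiplicity_iff hd]
    have := pow_rootMultiplicity_dvd p 0
    simp only [map_zero, sub_zero] at this ⊢
    exact (h1 _).2 this

lemma natDegree_diag (w : ℕ → ℝ) (hw : ∀ k, w k ≠ 0) (p : ℝ[X]) :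
    (diag w p).natDegree = p.natDegree := by
  apply le_antisymm
  · rw [natDegree_le_iff_coeff_eq_zero]
    intro N hN
    rw [coeff_diag, coeff_eq_zero_of_natDegree_lt hN, zero_mul]
  · rw [natDegree_le_iff_coeff_eq_zero]
    intro N hN
    have := coeff_eq_zero_of_natDegree_lt hN
    rw [coeff_diag] at this
    exact (mul_eq_zero.1 this).resolve_right (hw N)

/-- A rapidly decreasing positive sequence does not decrease the number of real zeros. -/
theorem roots_card_le (A : ℕ → ℝ) (hA : ∀ k, 2 * A (k + 1) + Real.log 400 ≤ A (k + 2) + A k)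
    (f : ℝ[X]) : f.roots.card ≤ (diag (fun k => Real.exp (-(A k))) f).roots.card := by
  by_cases hf : f = 0
  · subst hf; simp
  set g := diag (fun k => Real.exp (-(A k))) f with hg
  have hfg : f = diag (fun k => Real.exp (A k)) g := by
    ext k
    rw [hg, coeff_diag, coeff_diag, mul_assoc, ← Real.exp_add]
    simp
  have hg0 : g ≠ 0 := by
    rintro h
    apply hf
    rw [hfg, h]
    ext k; simp
  have hgn0 : g.comp (-X) ≠ 0 := by
    intro h
    apply hg0
    have := congrArg (fun q => q.comp (-X)) h
    simpa using this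
  rw [roots_partition f, roots_partition g]
  have h1 : npos f ≤ npos g := by
    conv_lhs => rw [hfg]
    exact npos_diag_le A hA g hg0
  have h2 : npos (f.comp (-X)) ≤ npos (g.comp (-X)) := by
    conv_lhs => rw [hfg, diag_comp_neg]
    exact npos_diag_le A hA _ hgn0
  have h3 : g.rootMultiplicity 0 = f.rootMultiplicity 0 := by
    rw [hg]
    exact rootMultiplicity_diag _ (fun k => Real.exp_ne_zero _) f hf
  omega

lemma nonreal_count (p : ℝ[X]) :
    ((p.map (algebraMap ℝ ℂ)).roots.filter (fun z : ℂ => z.im ≠ 0)).card + p.roots.card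
      = p.natDegree := by
  classical
  by_cases hp : p = 0
  · subst hp; simp
  have hinj : Function.Injective (algebraMap ℝ ℂ) := (algebraMap ℝ ℂ).injective
  have hpm : p.map (algebraMap ℝ ℂ) ≠ 0 := (Polynomial.map_ne_zero_iff hinj).2 hp
  have h1 : (p.map (algebraMap ℝ ℂ)).roots.card = p.natDegree := by
    rw [← natDegree_map (algebraMap ℝ ℂ)]
    exact (splits_iff_card_roots.1 (IsAlgClosed.splits _))
  have h2 : (p.map (algebraMap ℝ ℂ)).roots.filter (fun z : ℂ => ¬ z.im ≠ 0)
      = p.roots.map (algebraMap ℝ ℂ) := by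
    ext z
    by_cases hz : z.im ≠ 0
    · rw [Multiset.count_filter_of_neg (by simpa using hz)]
      symm
      rw [Multiset.count_eq_zero]
      intro hmem
      rw [Multiset.mem_map] at hmem
      obtain ⟨x, -, rfl⟩ := hmem
      apply hz
      simp
    · rw [Multiset.count_filter_of_pos (p := fun z : ℂ => ¬ z.im ≠ 0) hz, count_roots]
      push Not at hz
      have hzr : z = algebraMap ℝ ℂ z.re := by
        apply Complex.ext
        · simp
        · simp [hz]
      rw [hzr, Multiset.count_map_eq_count' _ _ hinj, count_roots,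
        ← eq_rootMultiplicity_map hinj]
  have h3 := congrArg Multiset.card (Multiset.filter_add_not (fun z : ℂ => z.im ≠ 0)
    (p.map (algebraMap ℝ ℂ)).roots)
  rw [Multiset.card_add, h2, Multiset.card_map, h1] at h3
  exact h3

/-- Every positive sequence `γ` with `γ_{k+1}^2 ≥ 400 γ_k γ_{k+2}` is a complex zero decreasing
sequence (in the form `γ_k = exp (-A_k)`). -/
theorem czds (A : ℕ → ℝ) (hA : ∀ k, 2 * A (k + 1) + Real.log 400 ≤ A (k + 2) + A k) (f : ℝ[X]) :
    (((diag (fun k => Real.exp (-(A k))) f).map (algebraMap ℝ ℂ)).roots.filter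
        (fun z : ℂ => z.im ≠ 0)).card
      ≤ ((f.map (algebraMap ℝ ℂ)).roots.filter (fun z : ℂ => z.im ≠ 0)).card := by
  have h1 := nonreal_count f
  have h2 := nonreal_count (diag (fun k => Real.exp (-(A k))) f)
  rw [natDegree_diag _ (fun k => Real.exp_ne_zero _)] at h2
  have h3 := roots_card_le A hA f
  omega

lemma pow_second_difference (p : ℕ) (hp : 3 ≤ p) (k : ℕ) :
    2 * (k + 1) ^ p + 6 ≤ (k + 2) ^ p + k ^ p := by
  induction p, hp using Nat.le_induction with
  | base => ring_nf; nlinarith
  | succ p hp ih =>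
    have h1 : k ^ p ≤ (k + 2) ^ p := Nat.pow_le_pow_left (by omega) p
    rw [pow_succ, pow_succ, pow_succ]
    nlinarith

lemma log_400_le : Real.log 400 ≤ 6 := by
  rw [Real.log_le_iff_le_exp (by norm_num)]
  have h1 : (2.7182818283 : ℝ) < Real.exp 1 := Real.exp_one_gt_d9
  have h2 : Real.exp 6 = Real.exp 1 ^ 6 := by
    rw [← Real.exp_nat_mul]; norm_num
  rw [h2]
  calc (400 : ℝ) ≤ 2.7182818283 ^ 6 := by norm_num
    _ ≤ Real.exp 1 ^ 6 := pow_le_pow_left₀ (by norm_num) h1.le 6

end Pool.Agent.Lib.MP561634
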